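import Pool.Agent.H29.DW.Targets
import Pool.Agent.H21.GLB.SM

/-! MS: measurability, bounds, supports. -/

set_option autoImplicit false

open NumberField NumberField.InfinitePlace NumberField.Units
  NumberField.Units.dirichletUnitTheorem MeasureTheory Set Filter Complex
open scoped nonZeroDivisors ENNReal

namespace Pool.Agent.H79.DW

open Pool.Agent.H25.HK Pool.Agent.H23.LB Pool.Agent.H23.LC Pool.Agent.H29.DW
open Pool.Agent.H28.RC (Rep ft idl)
open Pool.Agent.H21.GLB (fin_set norm_idl sum_log log_near)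

variable {K : Type} [Field K] [NumberField K]

omit [NumberField K] in
theorem norm_an (v : InfinitePlace K) (θ : ℝ) : ‖an v θ‖ = 1 := by
  classical
  unfold an
  split_ifs
  · simp
  · simp
  · exact Complex.norm_exp_ofReal_mul_I θ

omit [NumberField K] in
theorem norm_om (s : Bool) (θ : InfinitePlace K → ℝ) (v : InfinitePlace K) :
    ‖om s θ v‖ = 1 := by
  unfold om
  cases s
  · simp only [Bool.false_eq_true, if_false]
    rw [RCLike.norm_conj]
    exact norm_an v _
  · simp only [if_true]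
    exact norm_an v _

omit [NumberField K] in
theorem norm_wv (v : InfinitePlace K) (x : K) (y : InfinitePlace K → ℝ)
    (ω : InfinitePlace K → ℂ) (h : ‖ω v‖ = 1) :
    ‖wv v x y ω‖ = v x * Real.exp (y v / 2) := by
  unfold wv
  rw [norm_mul, norm_mul, h, mul_one, InfinitePlace.norm_embedding_eq, Complex.norm_real,
    Real.norm_eq_abs, abs_of_pos (Real.exp_pos _)]

theorem norm_chp (c w : ℂ) : ‖chp c w‖ = 1 := by
  unfold chp
  have h : cexp (-((c * ((w - 1) - (w - 1) ^ 2 / 2)).re : ℝ) * I) =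
      cexp (((-(c * ((w - 1) - (w - 1) ^ 2 / 2)).re : ℝ) : ℂ) * I) := by
    push_cast
    ring_nf
  rw [h]
  exact Complex.norm_exp_ofReal_mul_I _

theorem near_one {c : ℂ} {H : ℝ} {p : ℂ → ℂ} {w : ℂ} (hH : 1 ≤ H)
    (hp : ∀ x : ℂ, 1 / 16 < ‖x‖ → p x = 0) (h : tw1 c H p w ≠ 0) : ‖w - 1‖ ≤ 1 / 16 := by
  by_contra hcon
  rw [not_le] at hcon
  apply h
  unfold tw1
  rw [hp, mul_zero]
  rw [norm_mul, Complex.norm_real, Real.norm_eq_abs, abs_of_pos (by linarith)]
  have h0 := norm_nonneg (w - 1)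
  nlinarith

theorem Wg_near {cp : InfinitePlace K → ℂ} {H : InfinitePlace K → ℝ}
    {p : InfinitePlace K → ℂ → ℂ} (hH : ∀ v, 1 ≤ H v)
    (hp : ∀ v, ∀ x : ℂ, 1 / 16 < ‖x‖ → p v x = 0) {x : K} {y : InfinitePlace K → ℝ}
    {ω : InfinitePlace K → ℂ} (h : Wg cp H p x y ω ≠ 0) (v : InfinitePlace K) :
    ‖wv v x y ω - 1‖ ≤ 1 / 16 := by
  unfold Wg at h
  rw [Finset.prod_ne_zero_iff] at h
  exact near_one (hH v) (hp v) (h v (Finset.mem_univ v))

theorem abs_near {w : ℂ} (h : ‖w - 1‖ ≤ 1 / 16) : |‖w‖ - 1| ≤ 1 / 16 := by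
  have h1 := abs_norm_sub_norm_le w 1
  rw [norm_one] at h1
  exact h1.trans h

theorem zs_abs (s : Bool) (z : logSpace K) (w : {w : InfinitePlace K // w ≠ w₀}) :
    |(zs s z) w| = |z w| := by
  unfold zs
  cases s
  · simp
  · simp

/-- the support in the norm variable -/
theorem supp (hYC : T_YC) (M : FI K) (hM : M ≠ 0) (x : K) (hx : x ∈ M) (hx0 : x ≠ 0) (τ : ℝ)
    (z : logSpace K)
    (h : ∀ v : InfinitePlace K, |v x * Real.exp (yM K M τ z v / 2) - 1| ≤ 1 / 16) :
    τ ≤ Module.finrank ℚ K := by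
  have hMpos : 0 < (FractionalIdeal.absNorm M : ℝ) := by
    have h1 : FractionalIdeal.absNorm M ≠ 0 := by
      rw [Ne, FractionalIdeal.absNorm_eq_zero_iff]
      exact hM
    have h2 : 0 ≤ FractionalIdeal.absNorm M := FractionalIdeal.absNorm_nonneg M
    have h3 : 0 < FractionalIdeal.absNorm M := lt_of_le_of_ne h2 (Ne.symm h1)
    exact_mod_cast h3
  have hnx : 0 < ((|Algebra.norm ℚ x| : ℚ) : ℝ) := by
    have h1 : Algebra.norm ℚ x ≠ 0 := by
      rw [Ne, Algebra.norm_eq_zero_iff]
      exact hx0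
    have h2 : 0 < |Algebra.norm ℚ x| := abs_pos.mpr h1
    exact_mod_cast h2
  have hN := norm_idl M hM x hx
  have hI1 : (1 : ℝ) ≤ (Ideal.absNorm (idl K M x) : ℝ) := by
    have h1 : Ideal.absNorm (idl K M x) ≠ 0 := by
      intro h0
      rw [h0] at hN
      simp only [Nat.cast_zero, zero_mul] at hN
      exact absurd hN.symm hnx.ne'
    exact_mod_cast Nat.one_le_iff_ne_zero.mpr h1
  have hlog : ∀ v : InfinitePlace K, |Real.log (v x) + yM K M τ z v / 2| ≤ 2 * (1 / 16) := by
    intro v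
    have h1 := log_near (h v) (by norm_num)
    rwa [Real.log_mul ((map_ne_zero v).2 hx0) (Real.exp_ne_zero _), Real.log_exp] at h1
  have hsum : ∑ v : InfinitePlace K, (v.mult : ℝ) * (Real.log (v x) + yM K M τ z v / 2) =
      Real.log (Ideal.absNorm (idl K M x) : ℝ) + τ := by
    have h1 := (hYC K).1 (τ - Real.log (FractionalIdeal.absNorm M : ℝ)) z
    have h2 := sum_log x hx0
    rw [← hN, Real.log_mul (by linarith) hMpos.ne'] at h2
    have h3 : ∑ v : InfinitePlace K, (v.mult : ℝ) * (Real.log (v x) + yM K M τ z v / 2) =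
        ∑ v : InfinitePlace K, (v.mult : ℝ) * Real.log (v x) +
          (∑ v : InfinitePlace K, (v.mult : ℝ) * yM K M τ z v) / 2 := by
      rw [Finset.sum_div, ← Finset.sum_add_distrib]
      refine Finset.sum_congr rfl fun v _ => ?_
      ring
    unfold yM at *
    rw [h3, h2, h1]
    ring
  have habs : |Real.log (Ideal.absNorm (idl K M x) : ℝ) + τ| ≤ Module.finrank ℚ K := by
    rw [← hsum]
    refine (Finset.abs_sum_le_sum_abs _ _).trans ?_
    have h1 : ∀ v ∈ (Finset.univ : Finset (InfinitePlace K)),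
        |(v.mult : ℝ) * (Real.log (v x) + yM K M τ z v / 2)| ≤ (v.mult : ℝ) := by
      intro v _
      rw [abs_mul, Nat.abs_cast]
      exact mul_le_of_le_one_right (by positivity) ((hlog v).trans (by norm_num))
    refine (Finset.sum_le_sum h1).trans ?_
    have h2 : ∑ v : InfinitePlace K, (v.mult : ℝ) = Module.finrank ℚ K := by
      exact_mod_cast sum_mult_eq (K := K)
    rw [h2]
  have hl := Real.log_nonneg hI1
  have := (abs_le.mp habs).2
  linarith

/-- local finiteness -/
theorem loc_fin (hTH : T_TH) (hYC : T_YC) (M : FI K) (hM : M ≠ 0) (B : ℝ) :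
    {x : {x : K // x ∈ M} | ∃ (τ : ℝ) (z : logSpace K), (∀ w, |z w| ≤ B) ∧ |τ| ≤ B ∧
      ∀ v : InfinitePlace K, v x.1 * Real.exp (yM K M τ z v / 2) ≤ 2}.Finite := by
  have hn1 : (1 : ℝ) ≤ Module.finrank ℚ K := by exact_mod_cast Module.finrank_pos
  obtain ⟨C, hC⟩ := (hYC K).2.2.2.2.2 B
  set A : ℝ := |Real.log (FractionalIdeal.absNorm M : ℝ)| with hA
  set D : ℝ := |2 * (B + A)| + |C| with hD
  refine (fin_set hTH M hM (2 * Real.exp D)).subset ?_
  rintro x ⟨τ, z, hz, hτ, hx⟩ v
  have h2 : -(2 * D) ≤ yM K M τ z v := by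
    unfold yM
    rw [(hYC K).2.2.2.1]
    have h3 := hC z hz v
    have h4 : |τ - Real.log (FractionalIdeal.absNorm M : ℝ)| ≤ B + A :=
      (abs_sub _ _).trans (add_le_add hτ le_rfl)
    have h5 : |2 * (τ - Real.log (FractionalIdeal.absNorm M : ℝ)) /
        (Module.finrank ℚ K : ℝ)| ≤ |2 * (B + A)| := by
      rw [abs_div, abs_of_pos (by linarith : (0 : ℝ) < (Module.finrank ℚ K : ℝ))]
      rw [div_le_iff₀ (by linarith)]
      rw [abs_mul, abs_mul]
      have h6 : |τ - Real.log (FractionalIdeal.absNorm M : ℝ)| ≤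
          |B + A| := h4.trans (le_abs_self _)
      have h7 : 0 ≤ |(2 : ℝ)| * |B + A| := by
        positivity
      have h8 := mul_le_mul_of_nonneg_left h6 (abs_nonneg (2 : ℝ))
      nlinarith
    have h6 := neg_abs_le (2 * (τ - Real.log (FractionalIdeal.absNorm M : ℝ)) /
        (Module.finrank ℚ K : ℝ))
    have h7 := neg_abs_le (yc K 0 z v)
    have h8 := le_abs_self C
    have h9 : 0 ≤ D := by rw [hD]; positivity
    linarith
  have h3 := hx v
  have h4 : Real.exp (-D) ≤ Real.exp (yM K M τ z v / 2) :=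
    Real.exp_le_exp.2 (by linarith)
  have h5 : 0 ≤ v x.1 := apply_nonneg v _
  have h6 : v x.1 * Real.exp (-D) ≤ 2 := (mul_le_mul_of_nonneg_left h4 h5).trans h3
  have h7 : v x.1 = (v x.1 * Real.exp (-D)) * Real.exp D := by
    rw [mul_assoc, ← Real.exp_add]
    simp
  rw [h7]
  exact mul_le_mul_of_nonneg_right h6 (Real.exp_pos _).le

theorem om_measurable (s : Bool) (v : InfinitePlace K) :
    Measurable (fun u : logSpace K × ℝ × (InfinitePlace K → ℝ) => om s u.2.2 v) := by
  classical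
  have h1 : Measurable (fun θ : ℝ => an v θ) := by
    unfold an
    split_ifs
    · exact Measurable.ite (measurableSet_lt measurable_id measurable_const) measurable_const
        measurable_const
    · fun_prop
  have h2 : Measurable (fun u : logSpace K × ℝ × (InfinitePlace K → ℝ) => an v (u.2.2 v)) :=
    h1.comp ((measurable_pi_apply v).comp (measurable_snd.comp measurable_snd))
  unfold om
  cases s
  · simp only [Bool.false_eq_true, if_false]
    exact Complex.continuous_conj.measurable.comp h2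
  · simp only [if_true]
    exact h2

theorem Wg_measurable (hYC : T_YC) (M : FI K) {cp : InfinitePlace K → ℂ}
    {H : InfinitePlace K → ℝ} {p : InfinitePlace K → ℂ → ℂ} (hc : ∀ v, Continuous (p v))
    (s : Bool) (x : K) :
    Measurable (fun u : logSpace K × ℝ × (InfinitePlace K → ℝ) =>
      Wg cp H p x (yM K M u.2.1 (zs s u.1)) (om s u.2.2)) := by
  classical
  unfold Wg
  refine Finset.measurable_prod _ fun v _ => ?_
  have h1 : Continuous (fun w : ℂ => tw1 (cp v) (H v) (p v) w) := by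
    unfold tw1 chp
    refine Continuous.mul ?_ ?_
    · refine Complex.continuous_exp.comp ?_
      refine Continuous.mul ?_ continuous_const
      refine Continuous.neg ?_
      exact Complex.continuous_ofReal.comp (Complex.continuous_re.comp (by fun_prop))
    · exact (hc v).comp (by fun_prop)
  refine h1.measurable.comp ?_
  unfold wv
  refine Measurable.mul ?_ (om_measurable s v)
  refine Measurable.mul measurable_const ?_
  refine Complex.measurable_ofReal.comp (Real.measurable_exp.comp ?_)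
  refine Measurable.div_const ?_ _
  have h2 : Continuous (fun u : logSpace K × ℝ × (InfinitePlace K → ℝ) =>
      (u.2.1 - Real.log (FractionalIdeal.absNorm M : ℝ), zs s u.1)) := by
    refine Continuous.prodMk (by fun_prop) ?_
    unfold zs
    cases s
    · simp only [Bool.false_eq_true, if_false]
      exact continuous_fst.neg
    · simp only [if_true]
      exact continuous_fst
  have h3 := (hYC K).2.2.2.2.1.comp h2
  exact ((continuous_apply v).comp h3).measurable

theorem bmp_cont {B : ℝ} {p : ℂ → ℂ} {A : ℕ} (h : Bmp A B p) : Continuous p :=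
  (h.smooth 0).continuous

theorem tsum_measurable (hTH : T_TH) (hYC : T_YC) (M : FI K) (hM : M ≠ 0)
    {cp : InfinitePlace K → ℂ} {H : InfinitePlace K → ℝ} {p : InfinitePlace K → ℂ → ℂ}
    (hc : ∀ v, Continuous (p v)) (hH : ∀ v, 1 ≤ H v)
    (hp : ∀ v, ∀ x : ℂ, 1 / 16 < ‖x‖ → p v x = 0) (cc : K → ℂ) (s : Bool) (P : K → Prop)
    (hP : ∀ x, P x → x ∈ M) :
    Measurable (fun u : logSpace K × ℝ × (InfinitePlace K → ℝ) =>
      ∑' x : {x : K // P x}, cc x * Wg cp H p x (yM K M u.2.1 (zs s u.1)) (om s u.2.2)) := by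
  classical
  have hfin : ∀ B : ℝ, ∃ F : Finset {x : K // P x},
      ∀ u : logSpace K × ℝ × (InfinitePlace K → ℝ), (∀ w, |u.1 w| ≤ B) → |u.2.1| ≤ B →
      ∀ x : {x : K // P x}, x ∉ F →
        cc x * Wg cp H p x (yM K M u.2.1 (zs s u.1)) (om s u.2.2) = 0 := by
    intro B
    have hf := loc_fin hTH hYC M hM B
    let g : {x : K // P x} → {x : K // x ∈ M} := fun x => ⟨x.1, hP x.1 x.2⟩
    have hg : Function.Injective g := by
      intro x x' h
      have h1 : (g x).1 = (g x').1 := congrArg Subtype.val h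
      exact Subtype.ext h1
    refine ⟨(Set.Finite.preimage (f := g) hg.injOn hf).toFinset, fun u h1 h2 x hx => ?_⟩
    by_contra hne
    apply hx
    rw [Set.Finite.mem_toFinset]
    refine ⟨u.2.1, zs s u.1, fun w => by rw [zs_abs]; exact h1 w, h2, fun v => ?_⟩
    have h3 := abs_near (Wg_near hH hp (right_ne_zero_of_mul hne) v)
    rw [norm_wv v _ _ _ (norm_om s u.2.2 v)] at h3
    have h4 := (abs_le.mp h3).2
    show v x.1 * _ ≤ 2
    linarith
  choose F hF using hfin
  refine measurable_of_tendsto_metrizable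
    (f := fun (k : ℕ) u => ∑ x ∈ F (k : ℝ), cc x *
      Wg cp H p x (yM K M u.2.1 (zs s u.1)) (om s u.2.2)) ?_ ?_
  · intro k
    refine Finset.measurable_fun_sum _ fun x _ => ?_
    exact (Wg_measurable hYC M hc s x.1).const_mul _
  · rw [tendsto_pi_nhds]
    intro u
    have h1 : ∃ B : ℝ, (∀ w, |u.1 w| ≤ B) ∧ |u.2.1| ≤ B := by
      refine ⟨∑ w, |u.1 w| + |u.2.1|, fun w => ?_, ?_⟩
      · have := Finset.single_le_sum (f := fun w => |u.1 w|) (fun _ _ => abs_nonneg _)
          (Finset.mem_univ w)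
        have h2 := abs_nonneg u.2.1
        linarith
      · have : 0 ≤ ∑ w, |u.1 w| := Finset.sum_nonneg fun _ _ => abs_nonneg _
        linarith
    obtain ⟨B, hB1, hB2⟩ := h1
    obtain ⟨k₀, hk₀⟩ := exists_nat_ge B
    refine tendsto_const_nhds.congr' ?_
    filter_upwards [eventually_ge_atTop k₀] with k hk
    have hk' : B ≤ (k : ℝ) := hk₀.trans (by exact_mod_cast hk)
    exact tsum_eq_sum fun x hx =>
      hF (k : ℝ) u (fun w => (hB1 w).trans hk') (hB2.trans hk') x hx

theorem pf_MS (hTH : T_TH) (hYC : T_YC) (hFD : T_FD) : V_MS := by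
  intro K _ _ M cp H p cc s hM hPrm hB hcc
  classical
  have hH : ∀ v, 1 ≤ H v := fun v => (hPrm.par v).one_le
  choose B hB using hB
  have hp : ∀ v, ∀ x : ℂ, 1 / 16 < ‖x‖ → p v x = 0 := fun v => (hB v).supp
  have hc : ∀ v, Continuous (p v) := fun v => bmp_cont (hB v)
  have hsup : ∀ (z : logSpace K) (τ : ℝ) (θ : InfinitePlace K → ℝ) (x : K), x ∈ M →
      Wg cp H p x (yM K M τ z) (om s θ) ≠ 0 → x ≠ 0 ∧ τ ≤ Module.finrank ℚ K := by
    intro z τ θ x hx h
    have h1 : ∀ v, |v x * Real.exp (yM K M τ z v / 2) - 1| ≤ 1 / 16 := by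
      intro v
      have h3 := abs_near (Wg_near hH hp h v)
      rwa [norm_wv v _ _ _ (norm_om s θ v)] at h3
    have hx0 : x ≠ 0 := by
      rintro rfl
      obtain ⟨v⟩ : Nonempty (InfinitePlace K) := inferInstance
      have h2 := h1 v
      rw [map_zero, zero_mul, zero_sub, abs_neg, abs_one] at h2
      norm_num at h2
    exact ⟨hx0, supp hYC M hM x hx hx0 τ z h1⟩
  refine ⟨tsum_measurable hTH hYC M hM hc hH hp cc s _ fun x hx => hx,
    tsum_measurable hTH hYC M hM hc hH hp cc s _ fun x hx => hx.1, hsup, ?_⟩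
  intro T
  obtain ⟨B₀, hB₀⟩ := (hFD K).2.1
  set R : ℝ := max B₀ (max |T| (Module.finrank ℚ K)) with hR
  have hf := loc_fin hTH hYC M hM R
  refine ⟨∑ x ∈ hf.toFinset, ∏ v, B v, ?_⟩
  intro z τ θ hz hτ
  have hBn : ∀ v, 0 ≤ B v := fun v => by
    have h1 := (hB v).bound 0 le_rfl 0
    exact (norm_nonneg _).trans h1
  have hbd : ∀ x : K, ‖Wg cp H p x (yM K M τ (zs s z)) (om s θ)‖ ≤ ∏ v, B v := by
    intro x
    unfold Wg
    rw [norm_prod]
    refine Finset.prod_le_prod (fun v _ => norm_nonneg _) fun v _ => ?_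
    unfold tw1
    rw [norm_mul, norm_chp, one_mul]
    have h1 := (hB v).bound 0 le_rfl ((H v : ℂ) * (wv v x (yM K M τ (zs s z)) (om s θ) - 1))
    rwa [norm_iteratedFDeriv_zero] at h1
  have hz0 : ∀ x : {x : K // x ∈ M}, x ∉ hf.toFinset →
      ‖Wg cp H p x (yM K M τ (zs s z)) (om s θ)‖ = 0 := by
    intro x hx
    by_contra hne
    rw [norm_eq_zero] at hne
    apply hx
    rw [Set.Finite.mem_toFinset]
    have h2 := (hsup _ τ θ x.1 x.2 hne).2
    refine ⟨τ, zs s z, fun w => ?_, ?_, fun v => ?_⟩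
    · rw [zs_abs]
      exact (hB₀ z hz w).trans (le_max_left _ _)
    · rw [abs_le]
      constructor
      · have h3 : |T| ≤ R := (le_max_left _ _).trans (le_max_right _ _)
        have h4 := le_abs_self T
        linarith
      · exact h2.trans ((le_max_right _ _).trans (le_max_right _ _))
    · have h3 := abs_near (Wg_near hH hp hne v)
      rw [norm_wv v _ _ _ (norm_om s θ v)] at h3
      have h4 := (abs_le.mp h3).2
      linarith
  refine ⟨summable_of_ne_finset_zero (s := hf.toFinset) fun x hx => hz0 x hx, ?_⟩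
  rw [tsum_eq_sum fun x hx => hz0 x hx]
  exact Finset.sum_le_sum fun x _ => hbd x.1

end Pool.Agent.H79.DW
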